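import Pool.Agent.H960.FV.Bas

/-!
Project FV (helper960), MP_fe4781_pr: the causes are met by the exploration.
-/

open MeasureTheory Filter Topology

namespace Pool.Agent.H284.FV

open H960FV

theorem T2b0 (hb : S_basic) : S_T2b0 := by
  intro d _ ρ β t x0 C hC x j τ
  have key : ∀ (τ : ℕ) (x : Z d) (j : ℕ), (x, j, τ) ∈ C →
      ∃ (i : ℕ) (u : Z d), j = i + 1 ∧ i ≤ τ ∧
        u ∈ bp β i (ex ρ β (th (spots C) (2 * ρ + 1)) i) ∧ x - u ∈ bx d (2 * ρ) := by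
    intro τ
    induction τ with
    | zero =>
      intro x j hx
      obtain ⟨-, hj⟩ := hC.val x j 0 hx
      obtain ⟨⟨u, i, hji, hxu, hfull, hβ⟩, -⟩ := hj
      have h0 : (u + 0, i) ∈ ra ρ β 0 := hfull 0 zero_mem_bx
      have hi : i = 0 := ra_zero.1 h0
      subst hi
      refine ⟨0, u, hji, le_rfl, mem_bp.2 ⟨?_, hβ⟩, hxu⟩
      change u ∈ th (spots C) (2 * ρ + 1)
      refine mem_th.2 ⟨x + sh 0, mem_spots.2 ⟨x, j, 0, hx, rfl⟩, ?_⟩
      have h1 : u - x ∈ bx d (2 * ρ) := bx_sub_comm hxu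
      have h2 : (sh 0 : Z d) ∈ bx d 1 := sh_mem 0
      have h3 := bx_sub h1 h2
      rwa [sub_sub] at h3
    | succ τ ih =>
      intro x j hx
      rcases hC.pred x j τ hx with h | ⟨i, u, x', hji, hx', hβ, hxu, hx'u⟩
      · obtain ⟨i, u, h1, h2, h3, h4⟩ := ih x j h
        exact ⟨i, u, h1, h2.trans (Nat.le_succ τ), h3, h4⟩
      · obtain ⟨i', u', h1, h2, h3, h4⟩ := ih x' i hx'
        subst h1
        refine ⟨i' + 1, u, hji, Nat.succ_le_succ h2, mem_bp.2 ⟨?_, hβ⟩, hxu⟩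
        change u ∈ th (bp β i' (ex ρ β (th (spots C) (2 * ρ + 1)) i')) (3 * ρ)
        refine mem_th.2 ⟨u', h3, ?_⟩
        have h5 : u - u' ∈ bx d (ρ + 2 * ρ) := bx_trans (bx_sub_comm hx'u) h4
        exact bx_mono (by omega) h5
  exact key τ x j

end Pool.Agent.H284.FV
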